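import Pool.Agent.Helper15.FC.St2

/-!
# Project FC (MP_16cbc0_nt), module DKM: `d_k` is multiplicative
-/

set_option autoImplicit false

namespace Pool.Agent.Helper38.FC

open Pool.Agent.Helper15.FC Polynomial

lemma monic_eq {F : Type} [Field F] {a b : F[X]} (ha : a.Monic) (hb : b.Monic) (h1 : a ∣ b)
    (h2 : b ∣ a) : a = b :=
  Polynomial.eq_of_monic_of_associated ha hb (associated_of_dvd_dvd h1 h2)

lemma factor_eq {F : Type} [Field F] {f g a b a' b' : F[X]} (hc : IsCoprime f g)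
    (ha : a.Monic) (ha' : a'.Monic) (h1 : a ∣ f) (h2 : b ∣ g) (h3 : a' ∣ f) (h4 : b' ∣ g)
    (h : a * b = a' * b') : a = a' := by
  refine monic_eq ha ha' ?_ ?_
  · have hcop : IsCoprime a b' := hc.of_isCoprime_of_dvd_left h1 |>.of_isCoprime_of_dvd_right h4
    exact hcop.dvd_of_dvd_mul_right (h ▸ dvd_mul_right a b)
  · have hcop : IsCoprime a' b := hc.of_isCoprime_of_dvd_left h3 |>.of_isCoprime_of_dvd_right h2
    exact hcop.dvd_of_dvd_mul_right (h ▸ dvd_mul_right a' b')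

lemma split_monic {F : Type} [Field F] {f g c : F[X]} (hc : c.Monic) (h : c ∣ f * g) :
    ∃ a b : F[X], a.Monic ∧ b.Monic ∧ a ∣ f ∧ b ∣ g ∧ a * b = c := by
  obtain ⟨a, b, ha, hb, hab⟩ := exists_dvd_and_dvd_of_dvd_mul h
  have h0 : a * b ≠ 0 := by rw [← hab]; exact hc.ne_zero
  have ha0 : a ≠ 0 := left_ne_zero_of_mul h0
  have hb0 : b ≠ 0 := right_ne_zero_of_mul h0
  have hla : a.leadingCoeff ≠ 0 := leadingCoeff_ne_zero.2 ha0
  have hlb : b.leadingCoeff ≠ 0 := leadingCoeff_ne_zero.2 hb0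
  have hl : a.leadingCoeff * b.leadingCoeff = 1 := by
    rw [← leadingCoeff_mul, ← hab]
    exact hc.leadingCoeff
  refine ⟨a * C a.leadingCoeff⁻¹, b * C b.leadingCoeff⁻¹, monic_mul_leadingCoeff_inv ha0,
    monic_mul_leadingCoeff_inv hb0, ?_, ?_, ?_⟩
  · have hu : IsUnit (C a.leadingCoeff⁻¹ : F[X]) := isUnit_C.2 (isUnit_iff_ne_zero.2 (inv_ne_zero hla))
    exact (hu.mul_right_dvd).2 ha
  · have hu : IsUnit (C b.leadingCoeff⁻¹ : F[X]) := isUnit_C.2 (isUnit_iff_ne_zero.2 (inv_ne_zero hlb))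
    exact (hu.mul_right_dvd).2 hb
  · have e : a * C a.leadingCoeff⁻¹ * (b * C b.leadingCoeff⁻¹) =
        a * b * C (a.leadingCoeff * b.leadingCoeff)⁻¹ := by
      rw [mul_inv, C_mul]
      ring
    rw [e, hl, inv_one, C_1, mul_one, ← hab]

theorem hDKM : StDKM := by
  intro F _ _ k f g hf hg hc
  unfold dk
  rw [← Nat.card_prod]
  symm
  refine Nat.card_congr (Equiv.ofBijective (fun x :
      {a : Fin k → F[X] // (∀ i, (a i).Monic) ∧ ∏ i, a i = f} ×
      {b : Fin k → F[X] // (∀ i, (b i).Monic) ∧ ∏ i, b i = g} =>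
      (⟨fun i => x.1.1 i * x.2.1 i, fun i => (x.1.2.1 i).mul (x.2.2.1 i), by
        rw [Finset.prod_mul_distrib, x.1.2.2, x.2.2.2]⟩ :
        {c : Fin k → F[X] // (∀ i, (c i).Monic) ∧ ∏ i, c i = f * g})) ⟨?_, ?_⟩)
  · rintro ⟨⟨a, ha, hpa⟩, ⟨b, hb, hpb⟩⟩ ⟨⟨a', ha', hpa'⟩, ⟨b', hb', hpb'⟩⟩ h
    have h' : ∀ i, a i * b i = a' i * b' i := fun i =>
      congrFun (congrArg Subtype.val h) i
    have d1 : ∀ i, a i ∣ f := fun i => hpa ▸ Finset.dvd_prod_of_mem a (Finset.mem_univ i)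
    have d2 : ∀ i, b i ∣ g := fun i => hpb ▸ Finset.dvd_prod_of_mem b (Finset.mem_univ i)
    have d3 : ∀ i, a' i ∣ f := fun i => hpa' ▸ Finset.dvd_prod_of_mem a' (Finset.mem_univ i)
    have d4 : ∀ i, b' i ∣ g := fun i => hpb' ▸ Finset.dvd_prod_of_mem b' (Finset.mem_univ i)
    have e1 : a = a' := funext fun i =>
      factor_eq hc (ha i) (ha' i) (d1 i) (d2 i) (d3 i) (d4 i) (h' i)
    have e2 : b = b' := funext fun i =>
      factor_eq hc.symm (hb i) (hb' i) (d2 i) (d1 i) (d4 i) (d3 i)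
        (by rw [mul_comm, h' i, mul_comm])
    subst e1
    subst e2
    rfl
  · rintro ⟨c, hcm, hpc⟩
    have hdc : ∀ i, c i ∣ f * g := fun i => hpc ▸ Finset.dvd_prod_of_mem c (Finset.mem_univ i)
    choose a b ha hb hda hdb hab using fun i => split_monic (hcm i) (hdc i)
    have hA : (∏ i, a i).Monic := monic_prod_of_monic _ _ fun i _ => ha i
    have hB : (∏ i, b i).Monic := monic_prod_of_monic _ _ fun i _ => hb i
    have hAB : (∏ i, a i) * (∏ i, b i) = f * g := by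
      rw [← Finset.prod_mul_distrib, ← hpc]
      exact Finset.prod_congr rfl fun i _ => hab i
    have cA : IsCoprime (∏ i, a i) g := IsCoprime.prod_left fun i _ =>
      hc.of_isCoprime_of_dvd_left (hda i)
    have cB : IsCoprime f (∏ i, b i) := IsCoprime.prod_right fun i _ =>
      hc.of_isCoprime_of_dvd_right (hdb i)
    have hAf : ∏ i, a i = f := by
      refine monic_eq hA hf ?_ ?_
      · exact cA.dvd_of_dvd_mul_right (hAB ▸ dvd_mul_right _ _)
      · exact cB.dvd_of_dvd_mul_right (hAB ▸ dvd_mul_right _ _)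
    have hBg : ∏ i, b i = g := by
      rw [hAf] at hAB
      exact mul_left_cancel₀ hf.ne_zero hAB
    refine ⟨(⟨a, ha, hAf⟩, ⟨b, hb, hBg⟩), ?_⟩
    apply Subtype.ext
    funext i
    exact hab i

end Pool.Agent.Helper38.FC
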